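import Pool.Agent.N874.PP.Lat

/-!
# Project PP (helper874): the weight at the place at infinity (PP-WT, helper530)
-/

set_option autoImplicit false

open Polynomial Matrix
open scoped Classical

namespace Pool.Agent.N530.PP

open Pool.Agent.N874.PP

/-! ### leading coefficients with weights -/

section lc

variable {k : Type} [Field k]

/-- The coefficient at the weight `n` of `p`, where `p` has weight `deg p + d`; all coefficients
at weights above `n` vanish. -/
def Lc (p : k[X]) (d n : ℕ) (c : k) : Prop :=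
  (p = 0 ∨ p.natDegree + d ≤ n) ∧ (if d ≤ n then p.coeff (n - d) else 0) = c

lemma Lc.mul {p q : k[X]} {d e n m : ℕ} {c c' : k} (hp : Lc p d n c) (hq : Lc q e m c') :
    Lc (p * q) (d + e) (n + m) (c * c') := by
  obtain ⟨h1, h2⟩ := hp
  obtain ⟨h3, h4⟩ := hq
  rcases h1 with rfl | h1
  · have hc : c = 0 := by rw [← h2]; simp
    rw [hc, zero_mul, zero_mul]
    exact ⟨Or.inl rfl, by simp⟩
  rcases h3 with rfl | h3
  · have hc : c' = 0 := by rw [← h4]; simp
    rw [hc, mul_zero, mul_zero]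
    exact ⟨Or.inl rfl, by simp⟩
  refine ⟨Or.inr ?_, ?_⟩
  · have := natDegree_mul_le (p := p) (q := q)
    omega
  · rw [if_pos (by omega)] at h2 h4 ⊢
    rw [← h2, ← h4]
    have h5 : n + m - (d + e) = (n - d) + (m - e) := by omega
    rw [h5]
    exact coeff_mul_add_eq_of_natDegree_le (by omega) (by omega)

lemma Lc.add {p q : k[X]} {d n : ℕ} {c c' : k} (hp : Lc p d n c) (hq : Lc q d n c') :
    Lc (p + q) d n (c + c') := by
  obtain ⟨h1, h2⟩ := hp
  obtain ⟨h3, h4⟩ := hq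
  refine ⟨?_, ?_⟩
  · rcases h1 with rfl | h1
    · rwa [zero_add]
    rcases h3 with rfl | h3
    · rw [add_zero]; exact Or.inr h1
    · refine Or.inr ?_
      have := natDegree_add_le p q
      rcases le_total p.natDegree q.natDegree with h | h
      · rw [max_eq_right h] at this
        omega
      · rw [max_eq_left h] at this
        omega
  · rw [← h2, ← h4]
    split_ifs with h
    · rw [coeff_add]
    · rw [add_zero]

lemma Lc.neg {p : k[X]} {d n : ℕ} {c : k} (hp : Lc p d n c) : Lc (-p) d n (-c) := by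
  obtain ⟨h1, h2⟩ := hp
  refine ⟨?_, ?_⟩
  · rw [natDegree_neg, neg_eq_zero]
    exact h1
  · rw [← h2]
    split_ifs with h
    · rw [coeff_neg]
    · rw [neg_zero]

lemma Lc.sub {p q : k[X]} {d n : ℕ} {c c' : k} (hp : Lc p d n c) (hq : Lc q d n c') :
    Lc (p - q) d n (c - c') := by
  rw [sub_eq_add_neg, sub_eq_add_neg]
  exact hp.add hq.neg

lemma Lc.cast {p : k[X]} {d n : ℕ} {c : k} (hp : Lc p d n c) {d' n' : ℕ}
    (h : d + n' = d' + n) : Lc p d' n' c := by
  obtain ⟨h1, h2⟩ := hp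
  refine ⟨?_, ?_⟩
  · rcases h1 with h1 | h1
    · exact Or.inl h1
    · exact Or.inr (by omega)
  · rw [← h2]
    by_cases h3 : d ≤ n
    · rw [if_pos h3, if_pos (by omega)]
      congr 1
      omega
    · rw [if_neg h3, if_neg (by omega)]

/-- the weight and the leading coefficients -/
lemma lc_of_wt {d : Fin 3 → ℕ} {v : Fin 3 → k[X]} {n : ℕ} (h : wt d v ≤ n) (j : Fin 3) :
    Lc (v j) (d j) n (if d j ≤ n then (v j).coeff (n - d j) else 0) := by
  refine ⟨?_, rfl⟩
  by_cases h0 : v j = 0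
  · exact Or.inl h0
  · refine Or.inr (le_trans ?_ h)
    have h1 := Finset.le_sup (f := fun j => if v j = 0 then 0 else (v j).natDegree + d j)
      (Finset.mem_univ j)
    simp only [h0, if_false] at h1
    exact h1

lemma lc_ne {d : Fin 3 → ℕ} {v : Fin 3 → k[X]} (h : v ≠ 0) :
    ∃ j, (if d j ≤ wt d v then (v j).coeff (wt d v - d j) else 0) ≠ 0 := by
  have key : ∀ j, v j ≠ 0 → (v j).natDegree + d j = wt d v →
      (if d j ≤ wt d v then (v j).coeff (wt d v - d j) else 0) ≠ 0 := by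
    intro j h1 h2
    rw [if_pos (by omega), ← h2, Nat.add_sub_cancel]
    exact leadingCoeff_ne_zero.2 h1
  obtain ⟨j, -, hj⟩ := Finset.exists_mem_eq_sup Finset.univ Finset.univ_nonempty
    (fun j => if v j = 0 then 0 else (v j).natDegree + d j)
  have hj' : wt d v = if v j = 0 then 0 else (v j).natDegree + d j := hj
  by_cases h0 : v j = 0
  · rw [if_pos h0] at hj'
    obtain ⟨i, hi⟩ : ∃ i, v i ≠ 0 := by
      by_contra hne
      push Not at hne
      exact h (funext hne)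
    refine ⟨i, key i hi ?_⟩
    have h1 := Finset.le_sup (f := fun j => if v j = 0 then 0 else (v j).natDegree + d j)
      (Finset.mem_univ i)
    simp only [hi, if_false] at h1
    have h2 : (v i).natDegree + d i ≤ wt d v := h1
    omega
  · rw [if_neg h0] at hj'
    exact ⟨j, key j h0 hj'.symm⟩

lemma wt_eq {d : Fin 3 → ℕ} {v : Fin 3 → k[X]} {n : ℕ} {c : Fin 3 → k}
    (h : ∀ j, Lc (v j) (d j) n (c j)) (hc : c ≠ 0) : wt d v = n := by
  apply le_antisymm
  · refine Finset.sup_le fun j _ => ?_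
    by_cases h0 : v j = 0
    · simp [h0]
    · simp only [h0, if_false]
      exact (h j).1.resolve_left h0
  · obtain ⟨j, hj⟩ : ∃ j, c j ≠ 0 := by
      by_contra hne
      push Not at hne
      exact hc (funext hne)
    have h1 := (h j).2
    by_cases h2 : d j ≤ n
    · rw [if_pos h2] at h1
      rw [← h1] at hj
      have h3 := le_natDegree_of_ne_zero hj
      have h4 : v j ≠ 0 := by
        intro h5
        rw [h5, coeff_zero] at hj
        exact hj rfl
      have h5 := Finset.le_sup (f := fun j => if v j = 0 then 0 else (v j).natDegree + d j)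
        (Finset.mem_univ j)
      simp only [h4, if_false] at h5
      have h6 : (v j).natDegree + d j ≤ wt d v := h5
      omega
    · rw [if_neg h2] at h1
      exact absurd h1.symm hj

end lc

/-! ### the product and the norm in coordinates -/

section coord

variable {R : Type} [CommRing R]

/-- the matrix of the multiplication by `u 0 + u 1 θ + u 2 θ ^ 2` -/
def MM (a b : R) (u : Fin 3 → R) : Matrix (Fin 3) (Fin 3) R :=
  !![u 0, u 1, u 2; -(b * u 2), u 0 - a * u 2, u 1;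
    -(b * u 1), -(a * u 1) - b * u 2, u 0 - a * u 2]

lemma MM_map {S : Type} [CommRing S] (f : R →+* S) (a b : R) (u : Fin 3 → R) :
    (MM a b u).map f = MM (f a) (f b) (fun i => f (u i)) := by
  ext i j
  fin_cases i <;> fin_cases j <;> simp [MM]

/-- the coordinates of a product -/
lemma vecMul_MM (a b : R) (u v : Fin 3 → R) (j : Fin 3) :
    (v ᵥ* MM a b u) j = v 0 * MM a b u 0 j + v 1 * MM a b u 1 j + v 2 * MM a b u 2 j := by
  simp [Matrix.vecMul, dotProduct, Fin.sum_univ_three]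

/-- the product -/
lemma mul_crd (a b θ : R) (h : θ ^ 3 + a * θ + b = 0) (u v : Fin 3 → R) :
    (u 0 + u 1 * θ + u 2 * θ ^ 2) * (v 0 + v 1 * θ + v 2 * θ ^ 2) =
      (v ᵥ* MM a b u) 0 + (v ᵥ* MM a b u) 1 * θ + (v ᵥ* MM a b u) 2 * θ ^ 2 := by
  rw [vecMul_MM, vecMul_MM, vecMul_MM]
  simp only [MM, Matrix.of_apply, Matrix.cons_val', Matrix.cons_val_zero, Matrix.cons_val_one,
    Matrix.cons_val, Matrix.cons_val_fin_one]
  linear_combination (u 1 * v 2 + u 2 * v 1 + u 2 * v 2 * θ) * h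

end coord

section field

variable {k : Type} [Field k]

lemma nd_g (a₀ b₀ : k) : (X ^ 3 + C a₀ * X + C b₀ : k[X]).natDegree = 3 := by
  compute_degree!

/-- no zero divisors -/
lemma no_zero {a₀ b₀ : k} (hg : Irreducible (X ^ 3 + C a₀ * X + C b₀ : k[X]))
    {U V : Fin 3 → k} (h : V ᵥ* MM a₀ b₀ U = 0) : U = 0 ∨ V = 0 := by
  have : Fact (Irreducible (X ^ 3 + C a₀ * X + C b₀ : k[X])) := ⟨hg⟩
  obtain ⟨g, hgd⟩ : ∃ g : k[X], g = X ^ 3 + C a₀ * X + C b₀ := ⟨_, rfl⟩
  have hroot : (AdjoinRoot.root (X ^ 3 + C a₀ * X + C b₀ : k[X])) ^ 3 +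
      AdjoinRoot.of _ a₀ * AdjoinRoot.root (X ^ 3 + C a₀ * X + C b₀ : k[X]) +
      AdjoinRoot.of _ b₀ = 0 := by
    have h1 := AdjoinRoot.mk_self (f := (X ^ 3 + C a₀ * X + C b₀ : k[X]))
    rw [map_add, map_add, map_mul, map_pow, AdjoinRoot.mk_X, AdjoinRoot.mk_C,
      AdjoinRoot.mk_C] at h1
    exact h1
  -- the value
  have hval : ∀ W : Fin 3 → k, AdjoinRoot.of (X ^ 3 + C a₀ * X + C b₀ : k[X]) (W 0) +
      AdjoinRoot.of _ (W 1) * AdjoinRoot.root _ + AdjoinRoot.of _ (W 2) * AdjoinRoot.root _ ^ 2 =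
        0 → W = 0 := by
    intro W hW
    have h1 : AdjoinRoot.mk (X ^ 3 + C a₀ * X + C b₀ : k[X])
        (C (W 0) + C (W 1) * X + C (W 2) * X ^ 2) = 0 := by
      rw [map_add, map_add, map_mul, map_mul, map_pow, AdjoinRoot.mk_X, AdjoinRoot.mk_C,
        AdjoinRoot.mk_C, AdjoinRoot.mk_C]
      exact hW
    rw [AdjoinRoot.mk_eq_zero] at h1
    have h2 : (C (W 0) + C (W 1) * X + C (W 2) * X ^ 2 : k[X]) = 0 := by
      refine eq_zero_of_dvd_of_natDegree_lt h1 ?_
      rw [nd_g]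
      have : (C (W 0) + C (W 1) * X + C (W 2) * X ^ 2 : k[X]).natDegree ≤ 2 := by
        compute_degree
      omega
    have e0 : W 0 = 0 := by
      have := congrArg (fun p : k[X] => p.coeff 0) h2
      simpa using this
    have e1 : W 1 = 0 := by
      have := congrArg (fun p : k[X] => p.coeff 1) h2
      simpa [coeff_X, coeff_C] using this
    have e2 : W 2 = 0 := by
      have := congrArg (fun p : k[X] => p.coeff 2) h2
      simpa [coeff_X, coeff_C] using this
    funext i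
    fin_cases i
    · exact e0
    · exact e1
    · exact e2
  have h1 := mul_crd (AdjoinRoot.of (X ^ 3 + C a₀ * X + C b₀ : k[X]) a₀) (AdjoinRoot.of _ b₀)
    (AdjoinRoot.root _) hroot (fun i => AdjoinRoot.of _ (U i)) (fun i => AdjoinRoot.of _ (V i))
  have h2 : ∀ j, ((fun i => AdjoinRoot.of (X ^ 3 + C a₀ * X + C b₀ : k[X]) (V i)) ᵥ*
      MM (AdjoinRoot.of _ a₀) (AdjoinRoot.of _ b₀) (fun i => AdjoinRoot.of _ (U i))) j = 0 := by
    intro j
    rw [vecMul_MM, ← MM_map]
    have h3 := congrFun h j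
    rw [vecMul_MM] at h3
    simp only [Matrix.map_apply, ← map_mul, ← map_add, h3]
    simp
  rw [h2, h2, h2, zero_mul, zero_mul, add_zero, add_zero] at h1
  rcases mul_eq_zero.1 h1 with h3 | h3
  · exact Or.inl (hval U h3)
  · exact Or.inr (hval V h3)

lemma det_ne {a₀ b₀ : k} (hg : Irreducible (X ^ 3 + C a₀ * X + C b₀ : k[X]))
    {U : Fin 3 → k} (hU : U ≠ 0) : (MM a₀ b₀ U).det ≠ 0 := by
  intro h
  obtain ⟨V, hV, hV'⟩ := Matrix.exists_vecMul_eq_zero_iff.2 h
  rcases no_zero hg hV' with h1 | h1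
  · exact hU h1
  · exact hV h1

/-- the entries -/
lemma entries {a b : k[X]} {a₀ b₀ : k} {N n : ℕ} (ha : Lc a 0 (4 * N) a₀)
    (hb : Lc b 0 (6 * N) b₀) {u : Fin 3 → k[X]} {U : Fin 3 → k}
    (hu : ∀ j, Lc (u j) (![0, 2 * N, 4 * N] j) n (U j)) (i j : Fin 3) :
    Lc (MM a b u i j) (![0, 2 * N, 4 * N] j) (n + ![0, 2 * N, 4 * N] i) (MM a₀ b₀ U i j) := by
  have h0 : Lc (u 0) 0 n (U 0) := hu 0
  have h1 : Lc (u 1) (2 * N) n (U 1) := hu 1
  have h2 : Lc (u 2) (4 * N) n (U 2) := hu 2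
  have hb2 := (hb.mul h2).neg
  have hb1 := (hb.mul h1).neg
  have ha2 := ha.mul h2
  have ha1 := (ha.mul h1).neg
  have hb2' := hb.mul h2
  fin_cases i <;> fin_cases j
  · exact h0
  · exact h1
  · exact h2
  · exact hb2.cast (d' := 0) (n' := n + 2 * N) (by omega)
  · exact (h0.cast (d' := 2 * N) (n' := n + 2 * N) (by omega)).sub
      (ha2.cast (d' := 2 * N) (n' := n + 2 * N) (by omega))
  · exact h1.cast (d' := 4 * N) (n' := n + 2 * N) (by omega)
  · exact hb1.cast (d' := 0) (n' := n + 4 * N) (by omega)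
  · exact (ha1.cast (d' := 2 * N) (n' := n + 4 * N) (by omega)).sub
      (hb2'.cast (d' := 2 * N) (n' := n + 4 * N) (by omega))
  · exact (h0.cast (d' := 4 * N) (n' := n + 4 * N) (by omega)).sub
      (ha2.cast (d' := 4 * N) (n' := n + 4 * N) (by omega))

end field

section cub

variable {k L : Type} [Field k] [Field L] [Algebra k[X] L] {K : Type} [Field K]
  [Algebra K L] [Algebra k[X] K] [IsFractionRing k[X] K] [IsScalarTower k[X] K L]
  {a b : k[X]} {θ : L}

lemma crd_sum (h : IsCub K a b θ) (v : Fin 3 → k[X]) :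
    algebraMap k[X] L (v 0) + algebraMap k[X] L (v 1) * θ + algebraMap k[X] L (v 2) * θ ^ 2 =
      ∑ i, algebraMap k[X] K (v i) • h.basis i := by
  rw [Fin.sum_univ_three, h.basis_apply, h.basis_apply, h.basis_apply]
  have e0 : Pool.Agent.N874.PP.vec θ 0 = 1 := rfl
  have e1 : Pool.Agent.N874.PP.vec θ 1 = θ := rfl
  have e2 : Pool.Agent.N874.PP.vec θ 2 = θ ^ 2 := rfl
  rw [e0, e1, e2]
  simp only [Algebra.smul_def, ← IsScalarTower.algebraMap_apply, mul_one]

lemma crd_unique (h : IsCub K a b θ) {v w : Fin 3 → k[X]} {x : L} (hv : Crd θ v x)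
    (hw : Crd θ w x) : v = w := by
  have hv' : x = _ := hv
  have hw' : x = _ := hw
  rw [crd_sum h] at hv' hw'
  funext i
  have h1 := h.basis.repr_sum_self (fun i => algebraMap k[X] K (v i))
  have h2 := h.basis.repr_sum_self (fun i => algebraMap k[X] K (w i))
  have h3 : (fun i => algebraMap k[X] K (v i)) = fun i => algebraMap k[X] K (w i) := by
    rw [← h1, ← h2, ← hv', ← hw']
  exact IsFractionRing.injective k[X] K (congrFun h3 i)

lemma crd_zero : Crd (k := k) θ 0 0 := by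
  unfold Crd
  simp

lemma crd_mul (h : IsCub K a b θ) {u v : Fin 3 → k[X]} {x y : L} (hu : Crd θ u x)
    (hv : Crd θ v y) : Crd θ (v ᵥ* MM a b u) (x * y) := by
  have hu' : x = _ := hu
  have hv' : y = _ := hv
  have h1 := mul_crd (algebraMap k[X] L a) (algebraMap k[X] L b) θ h.root
    (fun i => algebraMap k[X] L (u i)) (fun i => algebraMap k[X] L (v i))
  have h2 : ∀ j, ((fun i => algebraMap k[X] L (v i)) ᵥ* MM (algebraMap k[X] L a)
      (algebraMap k[X] L b) (fun i => algebraMap k[X] L (u i))) j =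
      algebraMap k[X] L ((v ᵥ* MM a b u) j) := by
    intro j
    rw [vecMul_MM, vecMul_MM, ← MM_map]
    simp only [Matrix.map_apply, ← map_mul, ← map_add]
  rw [h2, h2, h2] at h1
  unfold Crd
  rw [hu', hv']
  exact h1

end cub

/-- the leading coefficients of a coefficient vector -/
lemma lead_ab {k : Type} [Field k] {a : k[X]} {n : ℕ} (h : a.natDegree ≤ n) :
    Lc a 0 n (a.coeff n) := by
  refine ⟨Or.inr (by omega), ?_⟩
  rw [if_pos (Nat.zero_le n), Nat.sub_zero]

/-- PP-WT -/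
theorem wtm : S_WT := by
  intro k L _ _ _ K _ _ _ _ _ a b θ N h ha hb hg x y u v w hx hy hu hv hw
  have hu0 : u ≠ 0 := by
    rintro rfl
    apply hx
    have h1 : x = _ := hu
    rw [h1]
    simp
  have hv0 : v ≠ 0 := by
    rintro rfl
    apply hy
    have h1 : y = _ := hv
    rw [h1]
    simp
  have hwe : w = v ᵥ* MM a b u := crd_unique h hw (crd_mul h hu hv)
  obtain ⟨U, hU⟩ : ∃ U : Fin 3 → k, U = fun j => if (![0, 2 * N, 4 * N] : Fin 3 → ℕ) j ≤
    wt ![0, 2 * N, 4 * N] u then (u j).coeff (wt ![0, 2 * N, 4 * N] u -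
      (![0, 2 * N, 4 * N] : Fin 3 → ℕ) j) else 0 := ⟨_, rfl⟩
  obtain ⟨V, hV⟩ : ∃ V : Fin 3 → k, V = fun j => if (![0, 2 * N, 4 * N] : Fin 3 → ℕ) j ≤
    wt ![0, 2 * N, 4 * N] v then (v j).coeff (wt ![0, 2 * N, 4 * N] v -
      (![0, 2 * N, 4 * N] : Fin 3 → ℕ) j) else 0 := ⟨_, rfl⟩
  have hUc : ∀ j, Lc (u j) ((![0, 2 * N, 4 * N] : Fin 3 → ℕ) j)
      (wt ![0, 2 * N, 4 * N] u) (U j) := by
    intro j
    rw [hU]
    exact lc_of_wt le_rfl j
  have hVc : ∀ j, Lc (v j) ((![0, 2 * N, 4 * N] : Fin 3 → ℕ) j)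
      (wt ![0, 2 * N, 4 * N] v) (V j) := by
    intro j
    rw [hV]
    exact lc_of_wt le_rfl j
  have hU0 : U ≠ 0 := by
    intro h1
    obtain ⟨j, hj⟩ := lc_ne (d := ![0, 2 * N, 4 * N]) hu0
    apply hj
    have h2 := congrFun h1 j
    rw [hU] at h2
    exact h2
  have hV0 : V ≠ 0 := by
    intro h1
    obtain ⟨j, hj⟩ := lc_ne (d := ![0, 2 * N, 4 * N]) hv0
    apply hj
    have h2 := congrFun h1 j
    rw [hV] at h2
    exact h2
  have hE := entries (lead_ab ha) (lead_ab hb) hUc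
  refine wt_eq (c := V ᵥ* MM (a.coeff (4 * N)) (b.coeff (6 * N)) U) ?_ ?_
  · intro j
    rw [hwe, vecMul_MM, vecMul_MM]
    have e : ∀ i : Fin 3, Lc (v i * MM a b u i j) ((![0, 2 * N, 4 * N] : Fin 3 → ℕ) j)
        (wt ![0, 2 * N, 4 * N] u + wt ![0, 2 * N, 4 * N] v)
        (V i * MM (a.coeff (4 * N)) (b.coeff (6 * N)) U i j) := fun i =>
      ((hVc i).mul (hE i j)).cast (by omega)
    exact ((e 0).add (e 1)).add (e 2)
  · intro h1
    rcases no_zero hg h1 with h2 | h2
    · exact hU0 h2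
    · exact hV0 h2

/-- the degree of the norm -/
theorem nw : S_NW := by
  intro k L _ _ _ K _ _ _ _ _ a b θ N h ha hb hg x u n hx hu hn
  have hu0 : u ≠ 0 := by
    rintro rfl
    apply hx
    have h1 : x = _ := hu
    rw [h1]
    simp
  -- the norm
  have hdet : n = (MM a b u).det := by
    apply IsFractionRing.injective k[X] K
    rw [hn, Algebra.norm_eq_matrix_det h.basis]
    have h1 : Algebra.leftMulMatrix h.basis x = ((MM a b u).map (algebraMap k[X] K))ᵀ := by
      ext i j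
      rw [Algebra.leftMulMatrix_eq_repr_mul]
      have hv : Crd θ (fun i => if i = j then 1 else 0 : Fin 3 → k[X]) (h.basis j) := by
        unfold Crd
        refine Eq.trans ?_ (crd_sum h (fun i => if i = j then 1 else 0 : Fin 3 → k[X])).symm
        rw [Finset.sum_eq_single j]
        · simp
        · intro i _ hij
          simp [hij]
        · intro h1
          exact absurd (Finset.mem_univ j) h1
      have h2 : x * h.basis j = _ := crd_mul h hu hv
      rw [crd_sum h] at h2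
      rw [h2, h.basis.repr_sum_self]
      rw [Matrix.transpose_apply, Matrix.map_apply]
      congr 1
      rw [vecMul_MM]
      fin_cases j <;> simp
    rw [h1, Matrix.det_transpose]
    exact ((algebraMap k[X] K).map_det _).symm
  obtain ⟨U, hU⟩ : ∃ U : Fin 3 → k, U = fun j => if (![0, 2 * N, 4 * N] : Fin 3 → ℕ) j ≤
    wt ![0, 2 * N, 4 * N] u then (u j).coeff (wt ![0, 2 * N, 4 * N] u -
      (![0, 2 * N, 4 * N] : Fin 3 → ℕ) j) else 0 := ⟨_, rfl⟩
  have hUc : ∀ j, Lc (u j) ((![0, 2 * N, 4 * N] : Fin 3 → ℕ) j)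
      (wt ![0, 2 * N, 4 * N] u) (U j) := by
    intro j
    rw [hU]
    exact lc_of_wt le_rfl j
  have hU0 : U ≠ 0 := by
    intro h1
    obtain ⟨j, hj⟩ := lc_ne (d := ![0, 2 * N, 4 * N]) hu0
    apply hj
    have h2 := congrFun h1 j
    rw [hU] at h2
    exact h2
  have hE := entries (lead_ab ha) (lead_ab hb) hUc
  obtain ⟨m, hm⟩ : ∃ m, m = wt ![0, 2 * N, 4 * N] u := ⟨_, rfl⟩
  rw [← hm] at hE ⊢
  have e : ∀ i j l : Fin 3, (![0, 2 * N, 4 * N] : Fin 3 → ℕ) i + (![0, 2 * N, 4 * N] : Fin 3 → ℕ) j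
      + (![0, 2 * N, 4 * N] : Fin 3 → ℕ) l = 6 * N →
      Lc (MM a b u 0 i * MM a b u 1 j * MM a b u 2 l) 0 (3 * m)
        (MM (a.coeff (4 * N)) (b.coeff (6 * N)) U 0 i *
          MM (a.coeff (4 * N)) (b.coeff (6 * N)) U 1 j *
          MM (a.coeff (4 * N)) (b.coeff (6 * N)) U 2 l) := by
    intro i j l hs
    have h0 : (![0, 2 * N, 4 * N] : Fin 3 → ℕ) 0 = 0 := rfl
    have h1 : (![0, 2 * N, 4 * N] : Fin 3 → ℕ) 1 = 2 * N := rfl
    have h2 : (![0, 2 * N, 4 * N] : Fin 3 → ℕ) 2 = 4 * N := rfl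
    refine (((hE 0 i).mul (hE 1 j)).mul (hE 2 l)).cast ?_
    rw [h0, h1, h2]
    omega
  have hL : Lc (MM a b u).det 0 (3 * m)
      (MM (a.coeff (4 * N)) (b.coeff (6 * N)) U).det := by
    rw [Matrix.det_fin_three, Matrix.det_fin_three]
    have s1 : (0 : ℕ) + 2 * N + 4 * N = 6 * N := by omega
    exact (((((e 0 1 2 (by show 0 + 2 * N + 4 * N = 6 * N; omega)).sub
      (e 0 2 1 (by show 0 + 4 * N + 2 * N = 6 * N; omega))).sub
      (e 1 0 2 (by show 2 * N + 0 + 4 * N = 6 * N; omega))).add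
      (e 1 2 0 (by show 2 * N + 4 * N + 0 = 6 * N; omega))).add
      (e 2 0 1 (by show 4 * N + 0 + 2 * N = 6 * N; omega))).sub
      (e 2 1 0 (by show 4 * N + 2 * N + 0 = 6 * N; omega))
  rw [hdet]
  have h1 := det_ne hg hU0
  obtain ⟨h2, h3⟩ := hL
  rw [if_pos (Nat.zero_le _), Nat.sub_zero] at h3
  apply le_antisymm
  · rcases h2 with h2 | h2
    · rw [h2, natDegree_zero]
      exact Nat.zero_le _
    · omega
  · apply le_natDegree_of_ne_zero
    rw [h3]
    exact h1

end Pool.Agent.N530.PP
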