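import Pool.Agent.N874.PP.Def

/-!
# Project PP (helper874): orbits of the unipotent group (PP-ORB, helper530)
-/

set_option autoImplicit false

open Polynomial
open scoped Classical

namespace Pool.Agent.N530.PP

open Pool.Agent.N874.PP

section tup

variable {R : Type} [CommRing R]

lemma chA_tau (u : R) (B : Tup R) : chA (tau u B) = chA B := by
  unfold chA tau gq
  ring

lemma chB_tau (u : R) (B : Tup R) : chB (tau u B) = chB B := by
  unfold chB tau gq
  ring

lemma gq_tau (u v : R) (B : Tup R) : gq (tau u B) v = gq B (u + v) := by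
  unfold tau gq
  ring

end tup

variable {k : Type} [Field k]

/-- polynomials of degree at most `n` -/
lemma fin_nd [Finite k] (n : ℕ) : {p : k[X] | p.natDegree ≤ n}.Finite := by
  have h1 : Finite (degreeLT k (n + 1)) :=
    Finite.of_equiv _ (degreeLTEquiv k (n + 1)).toEquiv.symm
  refine Set.Finite.subset (Set.toFinite ((degreeLT k (n + 1) : Submodule k k[X]) : Set k[X])) ?_
  intro p hp
  rw [SetLike.mem_coe, mem_degreeLT]
  refine lt_of_le_of_lt (degree_le_of_natDegree_le hp) ?_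
  exact_mod_cast Nat.lt_succ_self n

lemma nd_of_mem {n : ℕ} {p : k[X]} (hp : p ∈ degreeLT k (n + 1)) : p.natDegree ≤ n := by
  rw [mem_degreeLT] at hp
  by_cases h0 : p = 0
  · rw [h0, natDegree_zero]
    exact Nat.zero_le n
  · rw [degree_eq_natDegree h0] at hp
    have : p.natDegree < n + 1 := by exact_mod_cast hp
    omega

lemma card_lt [Finite k] (n : ℕ) : Nat.card (degreeLT k n) = Nat.card k ^ n := by
  rw [Nat.card_congr (degreeLTEquiv k n).toEquiv, Nat.card_fun, Nat.card_fin]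

/-- the set of the tuples is finite -/
lemma fin_X [Finite k] (S : Finset k[X]) (s : k[X] → k[X]) (N m : ℕ) (hm : m ≤ N) :
    {B : Tup k[X] | Xset N m S s B}.Finite := by
  have h1 := fin_nd (k := k) (4 * N)
  have h2 : ((fun q : k[X] × k[X] × k[X] × k[X] × k[X] =>
      (⟨q.1, q.2.1, q.2.2.1, q.2.2.2.1, q.2.2.2.2⟩ : Tup k[X])) ''
      ({p : k[X] | p.natDegree ≤ 4 * N} ×ˢ {p : k[X] | p.natDegree ≤ 4 * N} ×ˢ
        {p : k[X] | p.natDegree ≤ 4 * N} ×ˢ {p : k[X] | p.natDegree ≤ 4 * N} ×ˢ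
        {p : k[X] | p.natDegree ≤ 4 * N})).Finite :=
    (h1.prod (h1.prod (h1.prod (h1.prod h1)))).image _
  refine h2.subset ?_
  rintro B ⟨⟨b1, b2, b3, b4, b5⟩, -, -, -⟩
  refine ⟨(B.x, B.y, B.c, B.z, B.w), ⟨?_, ?_, ?_, ?_, ?_⟩, rfl⟩
  · show B.x.natDegree ≤ 4 * N
    omega
  · show B.y.natDegree ≤ 4 * N
    omega
  · show B.c.natDegree ≤ 4 * N
    omega
  · show B.z.natDegree ≤ 4 * N
    omega
  · show B.w.natDegree ≤ 4 * N
    omega

lemma nd_mul {p q : k[X]} {a b : ℕ} (hp : p.natDegree ≤ a) (hq : q.natDegree ≤ b) :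
    (p * q).natDegree ≤ a + b := natDegree_mul_le_of_le hp hq

lemma nd_const (n : ℕ) {p : k[X]} {a : ℕ} (hp : p.natDegree ≤ a) :
    ((n : k[X]) * p).natDegree ≤ a := by
  have h := nd_mul (natDegree_natCast n).le hp
  rwa [zero_add] at h

lemma nd_add {p q : k[X]} {a : ℕ} (hp : p.natDegree ≤ a) (hq : q.natDegree ≤ a) :
    (p + q).natDegree ≤ a := natDegree_add_le_of_degree_le hp hq

lemma nd_sub {p q : k[X]} {a : ℕ} (hp : p.natDegree ≤ a) (hq : q.natDegree ≤ a) :
    (p - q).natDegree ≤ a := natDegree_sub_le_of_le hp hq |>.trans (max_self a).le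

lemma nd_pow {p : k[X]} {a : ℕ} (hp : p.natDegree ≤ a) (n : ℕ) :
    (p ^ n).natDegree ≤ n * a := natDegree_pow_le_of_le n hp

lemma box_tau {N m : ℕ} (hm : m ≤ N) {B : Tup k[X]} (hB : InBox N m B) {u : k[X]}
    (hu : u.natDegree ≤ m) : InBox N m (tau u B) := by
  obtain ⟨b1, b2, b3, b4, b5⟩ := hB
  have c1 : B.x.natDegree ≤ 2 * N - 2 * m := by omega
  have c2 : B.y.natDegree ≤ 2 * N - m := by omega
  have mono : ∀ {p : k[X]} {a b : ℕ}, p.natDegree ≤ a → a ≤ b → p.natDegree ≤ b :=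
    fun h1 h2 => h1.trans h2
  have hu2 := nd_pow hu 2
  have hu3 := nd_pow hu 3
  have hu4 := nd_pow hu 4
  refine ⟨b1, ?_, ?_, ?_, ?_⟩
  · have h : (tau u B).y = B.y - ((2 : ℕ) : k[X]) * (u * B.x) := by
      unfold tau
      push_cast
      ring
    have h1 : (tau u B).y.natDegree ≤ 2 * N - m := by
      rw [h]
      exact nd_sub c2 (mono (nd_const 2 (nd_mul hu c1)) (by omega))
    omega
  · have h : (tau u B).c = B.c + ((2 : ℕ) : k[X]) * (u * B.y) -
        ((2 : ℕ) : k[X]) * (u ^ 2 * B.x) := by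
      unfold tau
      push_cast
      ring
    rw [h]
    exact nd_sub (nd_add b3 (mono (nd_const 2 (nd_mul hu c2)) (by omega)))
      (mono (nd_const 2 (nd_mul hu2 c1)) (by omega))
  · have h : (tau u B).z = B.z - ((6 : ℕ) : k[X]) * (u * B.c) -
        ((6 : ℕ) : k[X]) * (u ^ 2 * B.y) + ((4 : ℕ) : k[X]) * (u ^ 3 * B.x) := by
      unfold tau
      push_cast
      ring
    rw [h]
    exact nd_add (nd_sub (nd_sub b4 (mono (nd_const 6 (nd_mul hu b3)) (by omega)))
      (mono (nd_const 6 (nd_mul hu2 c2)) (by omega)))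
      (mono (nd_const 4 (nd_mul hu3 c1)) (by omega))
  · have h : (tau u B).w = ((4 : ℕ) : k[X]) * (u ^ 4 * B.x) - ((8 : ℕ) : k[X]) * (u ^ 3 * B.y) -
        ((12 : ℕ) : k[X]) * (u ^ 2 * B.c) + ((4 : ℕ) : k[X]) * (u * B.z) + B.w := by
      unfold tau gq
      push_cast
      ring
    rw [h]
    exact nd_add (nd_add (nd_sub (nd_sub (mono (nd_const 4 (nd_mul hu4 c1)) (by omega))
      (mono (nd_const 8 (nd_mul hu3 c2)) (by omega)))
      (mono (nd_const 12 (nd_mul hu2 b3)) (by omega)))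
      (mono (nd_const 4 (nd_mul hu b4)) (by omega))) b5

lemma tt_tau {Q : k[X]} {B : Tup k[X]} (h : TT Q B) (u : k[X]) : TT Q (tau u B) := by
  have key : ∀ v, Q ∣ gq B v → Q ∣ gq (tau u B) (v - u) := by
    intro v hv
    have h1 : gq (tau u B) (v - u) = gq B v := by
      rw [gq_tau, add_sub_cancel]
    rw [h1]
    exact hv
  rcases h with ⟨v, v', h1, h2, h3⟩ | ⟨h1, v, h2⟩
  · refine Or.inl ⟨v - u, v' - u, ?_, key v h2, key v' h3⟩
    rw [sub_sub_sub_cancel_right]
    exact h1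
  · exact Or.inr ⟨h1, v - u, key v h2⟩

lemma X_tau {N m : ℕ} (hm : m ≤ N) {S : Finset k[X]} {s : k[X] → k[X]} {B : Tup k[X]}
    (hB : Xset N m S s B) {u : k[X]} (hu : u.natDegree ≤ m) : Xset N m S s (tau u B) := by
  refine ⟨box_tau hm hB.box hu, fun Q hQ => tt_tau (hB.tt Q hQ) u, fun Q hQ => ?_,
    fun Q hQ => ?_⟩
  · rw [chA_tau]
    exact hB.ra Q hQ
  · rw [chB_tau]
    exact hB.rb Q hQ

/-- PP-ORB -/
theorem orb : S_ORB := by
  intro k _ _ h6 S s N m hmN
  have hfin : Finite {B : Tup k[X] | Xset N m S s B} := (fin_X S s N m hmN).to_subtype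
  rw [← card_lt (k := k) (m + 1), ← Nat.card_coe_set_eq, ← Nat.card_prod, ← Nat.card_coe_set_eq]
  have hch : ∀ p : {p : k[X] × k[X] | ∃ B : Tup k[X], Xset N m S s B ∧ B.x ≠ 0 ∧
      chA B = p.1 ∧ chB B = p.2}, ∃ B : Tup k[X], Xset N m S s B ∧ B.x ≠ 0 ∧
      chA B = p.1.1 ∧ chB B = p.1.2 := fun p => p.2
  choose B h1 h2 h3 h4 using hch
  refine Nat.card_le_card_of_injective (fun z => (⟨tau z.2.1 (B z.1), X_tau hmN (h1 z.1)
    (nd_of_mem z.2.2)⟩ : {B : Tup k[X] | Xset N m S s B})) ?_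
  rintro ⟨p, u⟩ ⟨p', u'⟩ h
  have h5 : tau u.1 (B p) = tau u'.1 (B p') := congrArg Subtype.val h
  have h6' : p = p' := by
    apply Subtype.ext
    refine Prod.ext ?_ ?_
    · rw [← h3 p, ← h3 p', ← chA_tau u.1 (B p), ← chA_tau u'.1 (B p'), h5]
    · rw [← h4 p, ← h4 p', ← chB_tau u.1 (B p), ← chB_tau u'.1 (B p'), h5]
  subst h6'
  have h7 : (B p).y - 2 * u.1 * (B p).x = (B p).y - 2 * u'.1 * (B p).x := congrArg Tup.y h5
  have h20 : (2 : k[X]) ≠ 0 := by
    intro h
    apply h6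
    have h8 : (2 : k) = 0 := by
      have h9 := congrArg (fun q : k[X] => q.coeff 0) h
      simpa using h9
    have : (6 : k) = 3 * 2 := by norm_num
    rw [this, h8, mul_zero]
  have h8 : (2 * (B p).x) * (u.1 - u'.1) = 0 := by linear_combination -h7
  have h9 : u = u' := by
    apply Subtype.ext
    rcases mul_eq_zero.1 h8 with h10 | h10
    · rcases mul_eq_zero.1 h10 with h11 | h11
      · exact absurd h11 h20
      · exact absurd h11 (h2 p)
    · exact sub_eq_zero.1 h10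
  rw [h9]

end Pool.Agent.N530.PP
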